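import Pool.Agent.H18.VP.Targets2
import Pool.Agent.H13.HX.XK

/-!
# Hilbert's irreducibility theorem over a field of finite transcendence degree: several variables
(row HPK)
-/

set_option autoImplicit false

open MvPolynomial
open Pool.Agent.H18.HIT Pool.Agent.H18.HX Pool.Agent.H18.VP
open Pool.Agent.H69.HIT (lift_mv lift_poly cf2 cf2_finite mem_of_cf2 map_eval' deg_mp_le
  deg_mp_inj)
open Pool.Agent.H13.HX (finSucc_map)

namespace Pool.Agent.H33.VP

/-- conjugate roots of a polynomial over an integrally closed ring -/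
theorem HPK_conj {k Q : Type} [Field k] [CharZero k] [IsAlgClosed k] [Field Q] [CharZero Q]
    [IsAlgClosed Q]
    (K₀ : Subfield k) (A : Subring k) (φ : A →+* Q) (K' : Subfield Q) (hAK : A ≤ K₀.toSubring)
    (halg : Algebra.IsAlgebraic K₀ k) (hint : ∀ x ∈ K₀, IsIntegral A x → x ∈ A)
    (hφ : ∀ a : A, φ a ∈ K') (f : Polynomial A) (hf : f.Monic)
    (hsep : ∀ γ : Q, (f.map φ).eval γ = 0 → (Polynomial.derivative (f.map φ)).eval γ ≠ 0)
    (hconj : ∀ β γ : Q, (f.map φ).eval β = 0 → (f.map φ).eval γ = 0 →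
      ∃ σ : Q ≃+* Q, (∀ a ∈ K', σ a = a) ∧ σ β = γ)
    (ρ ρ' : k) (h : (f.map A.subtype).eval ρ = 0) (h' : (f.map A.subtype).eval ρ' = 0) :
    ∃ σ : k ≃+* k, (∀ a ∈ K₀, σ a = a) ∧ σ ρ = ρ' := by
  obtain ⟨i, hi⟩ : ∃ i : A →+* K₀, ∀ a, ((i a : K₀) : k) = a :=
    ⟨A.subtype.codRestrict K₀ (fun a => hAK a.2), fun a => rfl⟩
  have hinj : Function.Injective i := by
    intro a b hab
    apply Subtype.ext
    rw [← hi a, ← hi b, hab]
  have hfi : (f.map i).Monic := hf.map i
  have hlift : ∀ g : Polynomial K₀, g.Monic → g ∣ f.map i →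
      ∃ gA : Polynomial A, gA.Monic ∧ gA.map i = g := by
    intro g hg hgf
    let _ : Algebra A K₀ := i.toAlgebra
    have h1 := integralClosure.mem_lifts_of_monic_of_dvd_map K₀ hf hg hgf
    rw [Polynomial.lifts_iff_coeff_lifts] at h1
    have h2 : g ∈ Polynomial.lifts i := by
      rw [Polynomial.lifts_iff_coeff_lifts]
      intro n
      obtain ⟨y, hy⟩ := h1 n
      have h3 : IsIntegral A (y : K₀) := y.2
      have h4 : IsIntegral A ((y : K₀) : k) := by
        obtain ⟨q, hq, hq'⟩ := h3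
        refine ⟨q, hq, ?_⟩
        have h5 := congrArg (fun z : K₀ => (z : k)) hq'
        have h6 := Polynomial.hom_eval₂ q (algebraMap A K₀) K₀.subtype (y : K₀)
        have h7 : K₀.subtype.comp (algebraMap A K₀) = algebraMap A k :=
          RingHom.ext fun a => hi a
        rw [h7] at h6
        exact h6.symm.trans (by rw [hq', map_zero])
      have h5 := hint _ (y : K₀).2 h4
      refine ⟨⟨_, h5⟩, ?_⟩
      rw [← hy]
      exact Subtype.ext (hi _)
    obtain ⟨gA, hgA⟩ := (Polynomial.mem_lifts g).1 h2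
    refine ⟨gA, Polynomial.monic_of_injective hinj ?_, hgA⟩
    rw [hgA]
    exact hg
  have hirr : Irreducible (f.map i) := by
    have hne : f.map i ≠ 1 := by
      intro h1
      have h2 : f = 1 := Polynomial.map_injective i hinj (by rw [h1, Polynomial.map_one])
      rw [h2, Polynomial.map_one, Polynomial.eval_one] at h
      exact one_ne_zero h
    rw [hfi.irreducible_iff_natDegree]
    refine ⟨hne, fun g g' hg hg' hgg => ?_⟩
    obtain ⟨B, hB, hB'⟩ := hlift g hg ⟨g', hgg.symm⟩
    obtain ⟨C, hC, hC'⟩ := hlift g' hg' ⟨g, by rw [← hgg, mul_comm]⟩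
    by_contra hcon
    push Not at hcon
    obtain ⟨hc1, hc2⟩ := hcon
    have hBC : B * C = f := Polynomial.map_injective i hinj (by
      rw [Polynomial.map_mul, hB', hC', hgg])
    have hroot : ∀ D : Polynomial A, D.Monic → (D.map i).natDegree ≠ 0 →
        ∃ β : Q, (D.map φ).eval β = 0 := by
      intro D hD hD'
      refine IsAlgClosed.exists_root _ ?_
      rw [Polynomial.degree_eq_natDegree (hD.map φ).ne_zero, hD.natDegree_map φ]
      rw [hD.natDegree_map i] at hD'
      exact_mod_cast hD'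
    obtain ⟨β, hβ⟩ := hroot B hB (by rw [hB']; exact hc1)
    obtain ⟨γ, hγ⟩ := hroot C hC (by rw [hC']; exact hc2)
    have hfφ : f.map φ = B.map φ * C.map φ := by
      rw [← hBC, Polynomial.map_mul]
    obtain ⟨σ, hσ, hσ'⟩ := hconj β γ
      (by rw [hfφ, Polynomial.eval_mul, hβ, zero_mul])
      (by rw [hfφ, Polynomial.eval_mul, hγ, mul_zero])
    have hBγ : (B.map φ).eval γ = 0 := by
      have h1 : σ ((B.map φ).eval β) = (B.map φ).eval γ := by
        rw [Polynomial.eval_map, Polynomial.eval_map, ← hσ']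
        have h6 := Polynomial.hom_eval₂ B φ (σ : Q →+* Q) β
        have h7 : (σ : Q →+* Q).comp φ = φ := RingHom.ext fun a => hσ _ (hφ a)
        rw [h7] at h6
        exact h6
      rw [← h1, hβ, map_zero]
    refine hsep γ (by rw [hfφ, Polynomial.eval_mul, hγ, mul_zero]) ?_
    rw [hfφ, Polynomial.derivative_mul, Polynomial.eval_add, Polynomial.eval_mul,
      Polynomial.eval_mul, hγ, hBγ, mul_zero, zero_mul, add_zero]
  have hroot : ∀ x : k, (f.map A.subtype).eval x = 0 → minpoly K₀ x = f.map i := by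
    intro x hx
    refine (minpoly.eq_of_irreducible_of_monic hirr ?_ hfi).symm
    rw [Polynomial.aeval_def, ← Polynomial.eval_map, Polynomial.map_map]
    have h1 : (algebraMap K₀ k).comp i = A.subtype := RingHom.ext fun a => hi a
    rw [h1]
    exact hx
  have : IsAlgClosure K₀ k := ⟨inferInstance, halg⟩
  have hc : IsConjRoot K₀ ρ' ρ := (hroot ρ' h').trans (hroot ρ h).symm
  obtain ⟨σ, hσ⟩ := isConjRoot_iff_exists_algEquiv.1 hc
  exact ⟨σ.toRingEquiv, fun a ha => σ.commutes ⟨a, ha⟩, hσ⟩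

theorem pf_HPK (hSEP : Pool.Agent.H18.HIT.T_SEP) (hIRS : Pool.Agent.H13.HX.T_IRS)
    (hHPA : T_HPA) (hHPQ : T_HPQ) : T_HPK := by
  classical
  intro k _ _ _ hk N Φ c s hΦ hirr hc
  obtain ⟨U, V, ρ, hρ, hUV⟩ := hSEP (Po N k) Φ hΦ hirr
  obtain ⟨P, hP⟩ : ∃ P, P = (finSuccEquiv k N).symm Φ := ⟨_, rfl⟩
  have hPΦ : finSuccEquiv k N P = Φ := by
    rw [hP, AlgEquiv.apply_symm_apply]
  have hPirr : Irreducible P := by
    rw [← MulEquiv.irreducible_iff (finSuccEquiv k N), hPΦ]
    exact hirr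
  have hP0 : P ≠ 0 := hPirr.ne_zero
  have hr : 1 ≤ P.totalDegree := by
    by_contra hlt
    have h0 : P.totalDegree = 0 := by omega
    rw [totalDegree_eq_zero_iff_eq_C] at h0
    apply hPirr.not_isUnit
    rw [h0]
    refine (IsUnit.mk0 _ ?_).map C
    intro hc
    rw [hc, C_0] at h0
    exact hP0 h0
  obtain ⟨SI, hSI⟩ := hIRS (N + 1) P.totalDegree k P hr rfl hPirr
  obtain ⟨m0, hm0, hm0'⟩ : ∃ m0 ∈ P.support, (m0.sum fun _ e => e) = P.totalDegree := by
    obtain ⟨m0, h1, h2⟩ := Finset.exists_mem_eq_sup P.support (support_nonempty.2 hP0)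
      (fun m => m.sum fun _ e => e)
    exact ⟨m0, h1, h2.symm⟩
  have hne : ∀ q : Po N k, q ≠ 0 → ∃ m, coeff m q ≠ 0 := by
    intro q hq
    by_contra hcon
    push Not at hcon
    exact hq (MvPolynomial.ext _ _ fun m => by rw [hcon m, coeff_zero])
  obtain ⟨mρ, hmρ⟩ := hne ρ hρ
  obtain ⟨mc, hmc⟩ := hne c hc
  -- all polynomials
  set PP : Set (Polynomial (Po N k)) := {Φ, U, V, Polynomial.C ρ, Polynomial.C c} with hPP
  have hPPf : PP.Finite := by simp [hPP]
  have hSf : (⋃ Q ∈ PP, cf2 Q).Finite := hPPf.biUnion fun Q _ => cf2_finite Q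
  obtain ⟨K₀, A, φ, K', hAK, halg, hSA, hint, hfd, hφ, hE⟩ := hHPA k hk
    ((hSf.toFinset ∪ SI) ∪ s) {coeff m0 P, coeff mρ ρ, coeff mc c} (by
      intro ε hε
      simp only [Finset.mem_insert, Finset.mem_singleton] at hε
      rcases hε with rfl | rfl | rfl
      · exact mem_support_iff.1 hm0
      · exact hmρ
      · exact hmc)
  have hA : ∀ Q ∈ PP, ∀ n m, coeff m (Q.coeff n) ∈ A := by
    intro Q hQ
    refine mem_of_cf2 A Q fun c hc => ?_
    refine hSA c (Finset.mem_union_left _ (Finset.mem_union_left _ ?_))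
    rw [Set.Finite.mem_toFinset]
    exact Set.mem_biUnion hQ hc
  have hliftC : ∀ q : Po N k, Polynomial.C q ∈ PP → ∃ qA : Po N A,
      map A.subtype qA = q := by
    intro q hq
    refine lift_mv A q fun m => ?_
    have h1 := hA _ hq 0 m
    rwa [Polynomial.coeff_C_zero] at h1
  have hlift : ∀ Q ∈ PP, ∃ QA : Polynomial (Po N A), QA.map (map A.subtype) = Q :=
    fun Q hQ => lift_poly A Q (hA Q hQ)
  obtain ⟨ΦA, hΦA⟩ := hlift Φ (by simp [hPP])
  obtain ⟨UA, hUA⟩ := hlift U (by simp [hPP])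
  obtain ⟨VA, hVA⟩ := hlift V (by simp [hPP])
  obtain ⟨ρA, hρA⟩ := hliftC ρ (by simp [hPP])
  obtain ⟨cA, hcA⟩ := hliftC c (by simp [hPP])
  have hμ : Function.Injective (map A.subtype : Po N A →+* Po N k) :=
    map_injective _ A.subtype_injective
  have hμ1 : Function.Injective (map A.subtype : Po (N + 1) A →+* Po (N + 1) k) :=
    map_injective _ A.subtype_injective
  have hM : Function.Injective
      (Polynomial.map (map A.subtype : Po N A →+* Po N k)) :=
    Polynomial.map_injective _ hμ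
  have hmonA : ΦA.Monic := by
    refine Polynomial.monic_of_injective hμ ?_
    rw [hΦA]
    exact hΦ
  have hsepA : UA * ΦA + VA * Polynomial.derivative ΦA = Polynomial.C ρA := by
    apply hM
    rw [Polynomial.map_add, Polynomial.map_mul, Polynomial.map_mul, ← Polynomial.derivative_map,
      Polynomial.map_C, hUA, hΦA, hVA, hρA]
    exact hUV
  -- the specialization is irreducible
  obtain ⟨PA, hPA⟩ : ∃ PA, PA = (finSuccEquiv A N).symm ΦA := ⟨_, rfl⟩
  have hPAΦ : finSuccEquiv A N PA = ΦA := by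
    rw [hPA, AlgEquiv.apply_symm_apply]
  have hPAP : map A.subtype PA = P := by
    apply (finSuccEquiv k N).injective
    rw [finSucc_map, hPAΦ, hΦA, hPΦ]
  have hval : ∀ (L : ℕ) (q : Po L A) (m : Fin L →₀ ℕ),
      (∃ h : coeff m (map A.subtype q) ∈ A, φ ⟨coeff m (map A.subtype q), h⟩ ≠ 0) →
      coeff m (map φ q) ≠ 0 := by
    rintro L q m ⟨h1, h2⟩
    rw [coeff_map]
    have h3 : coeff m q = ⟨coeff m (map A.subtype q), h1⟩ := by
      apply Subtype.ext
      show _ = coeff m (map A.subtype q)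
      rw [coeff_map]
      rfl
    rw [h3]
    exact h2
  have hdeg : (map φ PA).totalDegree = P.totalDegree := by
    apply le_antisymm
    · refine (deg_mp_le φ PA).trans ?_
      rw [← hPAP, deg_mp_inj _ A.subtype_injective]
    · rw [← hm0']
      refine le_totalDegree (mem_support_iff.2 (hval _ PA m0 ?_))
      rw [hPAP]
      exact hE _ (by simp)
  have hirr1 : Irreducible (map φ PA) :=
    hSI Qb A φ (fun s hs => hSA s (Finset.mem_union_left _ (Finset.mem_union_right _ hs))) PA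
      hPAP hdeg
  have hirr' : Irreducible (ΦA.map (map φ)) := by
    rw [← hPAΦ, ← finSucc_map, MulEquiv.irreducible_iff (finSuccEquiv Qb N)]
    exact hirr1
  have hρ' : map φ ρA ≠ 0 := by
    intro h0
    refine hval _ ρA mρ ?_ (by rw [h0, coeff_zero])
    rw [hρA]
    exact hE _ (by simp)
  have hc' : map φ cA ≠ 0 := by
    intro h0
    refine hval _ cA mc ?_ (by rw [h0, coeff_zero])
    rw [hcA]
    exact hE _ (by simp)
  -- Hilbert's theorem over the number field
  obtain ⟨w, hw, hconj⟩ := hHPQ N (ΦA.map (map φ)) (map φ cA * map φ ρA) K' hfd (hmonA.map _)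
    hirr' (mul_ne_zero hc' hρ') (by
      intro i m
      rw [Polynomial.coeff_map, coeff_map]
      exact hφ _)
  rw [map_mul] at hw
  have hwc := left_ne_zero_of_mul hw
  have hwρ := right_ne_zero_of_mul hw
  have hcZA : ∀ (B : Type) [Field B] (ψ : A →+* B),
      (fun i => ψ ((w i : A))) = (cZ w : Fin N → B) := by
    intro B _ ψ
    funext i
    exact map_intCast ψ (w i)
  have hev : ∀ (B : Type) [Field B] (ψ : A →+* B) (q : Po N A),
      eval (cZ w : Fin N → B) (map ψ q) = ψ (eval (fun i => (w i : A)) q) := by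
    intro B _ ψ q
    rw [map_eval', hcZA]
  obtain ⟨f, hf⟩ : ∃ f, f = ΦA.map (eval (fun i => (w i : A))) := ⟨_, rfl⟩
  have hfm : ∀ (B : Type) [Field B] (ψ : A →+* B),
      (ΦA.map (map ψ)).map (eval (cZ w : Fin N → B)) = f.map ψ := by
    intro B _ ψ
    rw [hf, Polynomial.map_map, Polynomial.map_map]
    refine congrArg (fun g => Polynomial.map g ΦA) (RingHom.ext fun q => hev B ψ q)
  refine ⟨w, ?_, fun r₁ r₂ hr₁ hr₂ => ?_⟩
  · rw [← hcA, hev]
    intro h0
    apply hwc
    rw [hev]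
    have h1 : eval (fun i => (w i : A)) cA = 0 := A.subtype_injective (by rw [h0, map_zero])
    rw [h1, map_zero]
  · rw [← hΦA, hfm k A.subtype] at hr₁ hr₂
    obtain ⟨σ, hσ, hσ'⟩ := HPK_conj K₀ A φ K'.toSubfield hAK halg hint hφ f
      (by rw [hf]; exact hmonA.map _) (by
        intro γ h1 h2
        apply hwρ
        rw [hev]
        have h3 := congrArg (fun q => ((q.map (eval (fun i => (w i : A)))).map φ).eval γ) hsepA
        simp only [Polynomial.map_add, Polynomial.map_mul, Polynomial.map_C, Polynomial.eval_add,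
          Polynomial.eval_mul, Polynomial.eval_C, ← Polynomial.derivative_map] at h3
        rw [← hf, h1, h2, mul_zero, mul_zero, add_zero] at h3
        exact h3.symm) (by
        intro β γ hβ hγ
        obtain ⟨σ, hσ⟩ := hconj β γ (by rw [hfm]; exact hβ) (by rw [hfm]; exact hγ)
        exact ⟨σ.toRingEquiv, fun a ha => σ.commutes ⟨a, ha⟩, hσ⟩) r₁ r₂ hr₁ hr₂
    exact ⟨σ, fun a ha => hσ a (hAK (hSA a (Finset.mem_union_right _ ha))), hσ'⟩

end Pool.Agent.H33.VP
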